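import Pool.Agent.H41.FA4

namespace Pool.Agent.Results.MP_8f8f86_mp.Hydrogen

open Pool.Agent.H41.TF

theorem result : EFA 1 1 < EFA 1 2 := FA

end Pool.Agent.Results.MP_8f8f86_mp.Hydrogen
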